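import Pool.Agent.H93.BL.Targets

namespace Pool.Agent.H95.BL.D
open MeasureTheory Set Pool.Agent.H93.BL

theorem d : T_D1 → T_D2 → T_D := by
  intro hD1 hD2 ι _ P E C hE hC hDD f hf
  obtain ⟨W, h1, h2, h3⟩ := hD1 ι P E C hC hDD
  have h4 := hD2 ι P E C hE hDD W h1 h2
  have h5 := h3 f hf 0
  rw [h4] at h5
  exact h5

end Pool.Agent.H95.BL.D
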