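import Pool.Agent.H93.BL.Targets

namespace Pool.Agent.H95.BL.M5
open MeasureTheory Set Pool.Agent.H93.BL

theorem m5 : T_M2 → T_M4 → T_B3 → T_M5 := by
  intro hM2 hM4 hB3 ι _ P B hB
  have h1 : ∀ i, P.liouville i {z | ∃ z', P.Step (i, z) z' ∧ z'.2 ∈ B z'.1} ≤
      ∑ j, P.liouville j (B j ∩ {z' | ∃ z, P.Step (i, z) (j, z')}) := by
    intro i
    have h2 : {z | ∃ z', P.Step (i, z) z' ∧ z'.2 ∈ B z'.1} ⊆
        ⋃ j, {z | ∃ z' ∈ B j, P.Step (i, z) (j, z')} := by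
      rintro z ⟨⟨j, z'⟩, h3, h4⟩
      exact Set.mem_iUnion.2 ⟨j, z', h4, h3⟩
    calc P.liouville i {z | ∃ z', P.Step (i, z) z' ∧ z'.2 ∈ B z'.1} ≤
        P.liouville i (⋃ j, {z | ∃ z' ∈ B j, P.Step (i, z) (j, z')}) := measure_mono h2
      _ ≤ ∑ j, P.liouville i {z | ∃ z' ∈ B j, P.Step (i, z) (j, z')} :=
          measure_iUnion_fintype_le _ _
      _ ≤ _ := Finset.sum_le_sum fun j _ => hM4 ι P i j (B j) (hB j)
  refine (Finset.sum_le_sum fun i _ => h1 i).trans ?_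
  rw [Finset.sum_comm]
  refine Finset.sum_le_sum fun j _ => ?_
  have h2 : ∑ i, P.liouville j (B j ∩ {z' | ∃ z, P.Step (i, z) (j, z')}) =
      P.liouville j (⋃ i, (B j ∩ {z' | ∃ z, P.Step (i, z) (j, z')})) := by
    rw [measure_iUnion ?_ ?_, tsum_fintype]
    · intro i i' hii'
      rw [Function.onFun, Set.disjoint_left]
      rintro z' ⟨-, z, hz⟩ ⟨-, z1, hz1⟩
      have h3 := (hB3 ι P (i, z) (i', z1) (j, z')).2.1 hz hz1
      exact hii' (congrArg Prod.fst h3)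
    · intro i
      exact (hB j).inter (hM2 ι P i j).2.measurableSet
  rw [h2]
  exact measure_mono (Set.iUnion_subset fun i => Set.inter_subset_left)

end Pool.Agent.H95.BL.M5
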