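import Pool.Agent.H93.BL.Targets

namespace Pool.Agent.H95.BL.SD
open MeasureTheory Set Pool.Agent.H93.BL

theorem lev_finite (c r v : ℂ) (k : ℤ) : (lev c r v k).Finite := by
  have h : lev c r v k ⊆ ({r ^ k * v, -(r ^ k * v), c * r ^ (-k) * (starRingEnd ℂ) v,
      -(c * r ^ (-k) * (starRingEnd ℂ) v)} : Set ℂ) := by
    intro w hw
    rcases hw with h | h | h | h <;> simp [h]
  exact (Set.toFinite _).subset h

/-- the conclusion for a set of allowed levels -/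
theorem main_aux (hSC : T_SC) {ι : Type} (P : Polygon ι) (E : Set ι) (c r : ℂ) (hc : ‖c‖ = 1)
    (hr : ‖r‖ = 1) (hE : ∀ j, j ∉ E → P.u j ^ 2 = c ∨ P.u j ^ 2 = -c ∨
    ((P.u j ^ 2 = r * c ∨ r * P.u j ^ 2 = c) ∧ P.Grazing E j))
    (f : ℤ → ι × ℝ × ℝ) (hf : ∀ n, P.Step (f n) (f (n + 1)) ∧ (f n).1 ∉ E) (m' : ℝ)
    (hm' : ∀ n, P.Grazing E (f n).1 → 2 * Real.sin (f n).2.2 ^ 2 - 1 ≤ m')
    (al : ℤ → Prop) (h0 : al 0)
    (hp : ∀ k, al k → ((starRingEnd ℂ) c * P.dir (f 0) ^ 2 * r ^ (2 * k + 1)).re ≤ m' → al (k + 1))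
    (hm : ∀ k, al k → ((starRingEnd ℂ) c * P.dir (f 0) ^ 2 * r ^ (2 * k - 1)).re ≤ m' →
      al (k - 1)) (n : ℤ) : ∃ k, al k ∧ P.dir (f n) ∈ lev c r (P.dir (f 0)) k := by
  set v := P.dir (f 0) with hv
  have hv1 : ‖v‖ = 1 := P.norm_dir _
  have hst : ∀ w j k, j ∉ E → al k → w ∈ lev c r v k →
      (P.Grazing E j → 2 * ip w (P.u j) ^ 2 - 1 ≤ m') → ∃ k', al k' ∧ P.refl j w ∈ lev c r v k' := by
    intro w j k hj hk hw hg
    obtain ⟨h1, h2⟩ := hSC ι P j c r v w k hc hr hv1 hw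
    rcases hE j hj with h3 | h3 | ⟨h3, h4⟩
    · exact ⟨k, hk, h1 (Or.inl h3)⟩
    · exact ⟨k, hk, h1 (Or.inr h3)⟩
    · have h5 := hg h4
      rcases h2 h3 with ⟨h6, h7⟩ | ⟨h6, h7⟩
      · exact ⟨k + 1, hp k hk (by rw [← h7]; exact h5), h6⟩
      · exact ⟨k - 1, hm k hk (by rw [← h7]; exact h5), h6⟩
  have hdir : ∀ n, P.dir (f (n + 1)) = P.refl (f (n + 1)).1 (P.dir (f n)) := by
    intro n
    obtain ⟨_, _, t, _, _, _, h⟩ := (hf n).1
    exact h
  have hdir' : ∀ n, P.dir (f n) = P.refl (f (n + 1)).1 (P.dir (f (n + 1))) := by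
    intro n
    rw [hdir n, P.refl_refl]
  have hfw : ∀ n, (∃ k, al k ∧ P.dir (f n) ∈ lev c r v k) →
      ∃ k, al k ∧ P.dir (f (n + 1)) ∈ lev c r v k := by
    rintro n ⟨k, hk, hw⟩
    rw [hdir n]
    refine hst _ _ k (hf (n + 1)).2 hk hw fun hg => ?_
    have h1 := hm' (n + 1) hg
    have h2 : ip (P.dir (f n)) (P.u (f (n + 1)).1) = -Real.sin (f (n + 1)).2.2 := by
      rw [← P.ip_dir_u, hdir n, P.ip_refl_u]
    rw [h2, neg_sq]
    exact h1
  have hbw : ∀ n, (∃ k, al k ∧ P.dir (f (n + 1)) ∈ lev c r v k) →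
      ∃ k, al k ∧ P.dir (f n) ∈ lev c r v k := by
    rintro n ⟨k, hk, hw⟩
    rw [hdir' n]
    refine hst _ _ k (hf (n + 1)).2 hk hw fun hg => ?_
    have h1 := hm' (n + 1) hg
    rw [P.ip_dir_u, neg_sq]
    exact h1
  induction n using Int.induction_on with
  | zero => exact ⟨0, h0, Or.inl (by rw [zpow_zero, one_mul])⟩
  | succ n ih => exact hfw _ ih
  | pred n ih =>
    refine hbw _ ?_
    rw [sub_add_cancel]
    exact ih

theorem sd : T_SA → T_SB → T_SC → T_SD := by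
  intro hSA hSB hSC ι _ P E c r hc hr hE f hf
  -- the uniform bound
  have hbd : ∃ m : ℝ, 0 < m ∧ m < 1 ∧ ∀ n, P.Grazing E (f n).1 → |Real.sin (f n).2.2| ≤ m := by
    have h1 : ∀ j, ∃ m : ℝ, 0 < m ∧ m < 1 ∧ (P.Grazing E j → ∀ n, (f n).1 = j →
        |Real.sin (f n).2.2| ≤ m) := by
      intro j
      by_cases hj : P.Grazing E j
      · obtain ⟨m, hm0, hm1, hm⟩ := hSA ι P E j hj
        exact ⟨m, hm0, hm1, fun _ => hm f hf⟩
      · exact ⟨1 / 2, by norm_num, by norm_num, fun h => absurd h hj⟩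
    choose g hg0 hg1 hg using h1
    have : Nonempty ι := ⟨(f 0).1⟩
    obtain ⟨j0, hj0⟩ := Finite.exists_max g
    exact ⟨g j0, hg0 j0, hg1 j0, fun n hn => (hg _ hn n rfl).trans (hj0 _)⟩
  obtain ⟨m, hm0, hm1, hm⟩ := hbd
  set m' : ℝ := 2 * m ^ 2 - 1 with hm'
  have hm'1 : m' < 1 := by
    rw [hm']
    nlinarith
  have hb : ∀ n, P.Grazing E (f n).1 → 2 * Real.sin (f n).2.2 ^ 2 - 1 ≤ m' := by
    intro n hn
    have h1 := hm n hn
    have h2 : Real.sin (f n).2.2 ^ 2 ≤ m ^ 2 := sq_le_sq' (abs_le.1 h1).1 (abs_le.1 h1).2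
    rw [hm']
    linarith
  have hr0 : r ≠ 0 := by
    intro h
    rw [h, norm_zero] at hr
    exact zero_ne_one hr
  set v := P.dir (f 0) with hv
  have hv1 : ‖v‖ = 1 := P.norm_dir _
  by_cases hru : ∃ N : ℕ, 0 < N ∧ r ^ N = 1
  · -- roots of unity
    obtain ⟨N, hN, hrN⟩ := hru
    have hz : ∀ k : ℤ, r ^ k = r ^ (k % N) := by
      intro k
      conv_lhs => rw [← Int.mul_ediv_add_emod k N]
      rw [zpow_add₀ hr0, zpow_mul, zpow_natCast, hrN, one_zpow, one_mul]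
    have hlev : ∀ k : ℤ, lev c r v k = lev c r v (k % N) := by
      intro k
      unfold lev
      rw [zpow_neg, zpow_neg, ← hz k]
    have hsub : (Set.range fun n => P.dir (f n)) ⊆ ⋃ k ∈ Set.Ico (0 : ℤ) N, lev c r v k := by
      rintro _ ⟨n, rfl⟩
      obtain ⟨k, -, hk⟩ := main_aux hSC P E c r hc hr hE f hf m' hb (fun _ => True) trivial
        (fun _ _ _ => trivial) (fun _ _ _ => trivial) n
      rw [hlev k] at hk
      have hN' : (0 : ℤ) < N := by exact_mod_cast hN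
      exact Set.mem_biUnion (show k % N ∈ Set.Ico (0 : ℤ) N from
        ⟨Int.emod_nonneg _ hN'.ne', Int.emod_lt_of_pos _ hN'⟩) hk
    exact ((Set.finite_Ico _ _).biUnion fun k _ => lev_finite c r v k).subset hsub
  · push Not at hru
    have hconjr : (starRingEnd ℂ) r = r⁻¹ := by
      rw [Complex.inv_def, Complex.normSq_eq_norm_sq, hr]
      simp
    obtain ⟨⟨k₁, hk₁⟩, ⟨k₂, hk₂0, hk₂⟩⟩ := hSB (r ^ 2) ((starRingEnd ℂ) c * v ^ 2 * r) m'
      (by rw [norm_pow, hr, one_pow])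
      (by rw [norm_mul, norm_mul, norm_pow, Complex.norm_conj, hc, hv1, hr]; norm_num)
      (fun n hn h => hru (2 * n) (by omega) (by rw [pow_mul]; exact h)) hm'1
    have h1 : (starRingEnd ℂ) c * v ^ 2 * r * (r ^ 2) ^ k₁ =
        (starRingEnd ℂ) c * v ^ 2 * r ^ (2 * (k₁ : ℤ) + 1) := by
      rw [zpow_add₀ hr0, zpow_one, zpow_mul, zpow_natCast]
      have : r ^ (2 : ℤ) = r ^ 2 := by norm_cast
      rw [this]
      ring
    have h2 : (starRingEnd ℂ) c * v ^ 2 * r * ((starRingEnd ℂ) (r ^ 2)) ^ k₂ =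
        (starRingEnd ℂ) c * v ^ 2 * r ^ (2 * (-(k₂ : ℤ)) + 1) := by
      rw [zpow_add₀ hr0, zpow_one, zpow_mul, zpow_neg, zpow_natCast, map_pow, hconjr]
      have : r ^ (2 : ℤ) = r ^ 2 := by norm_cast
      rw [this, inv_pow, inv_pow]
      ring
    rw [h1] at hk₁
    rw [h2] at hk₂
    have hsub : (Set.range fun n => P.dir (f n)) ⊆
        ⋃ k ∈ Set.Ioc (-(k₂ : ℤ)) k₁, lev c r v k := by
      rintro _ ⟨n, rfl⟩
      obtain ⟨k, hk', hk⟩ := main_aux hSC P E c r hc hr hE f hf m' hb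
        (fun k => -(k₂ : ℤ) < k ∧ k ≤ k₁) ⟨by omega, by omega⟩
        (fun k hk h => by
          refine ⟨by omega, ?_⟩
          by_contra h3
          have h4 : k = k₁ := by omega
          rw [h4] at h
          exact absurd hk₁ (not_lt.2 h))
        (fun k hk h => by
          refine ⟨?_, by omega⟩
          by_contra h3
          have h4 : 2 * k - 1 = 2 * (-(k₂ : ℤ)) + 1 := by omega
          rw [h4] at h
          exact absurd hk₂ (not_lt.2 h)) n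
      exact Set.mem_biUnion (show k ∈ Set.Ioc (-(k₂ : ℤ)) k₁ from hk') hk
    exact ((Set.finite_Ioc _ _).biUnion fun k _ => lev_finite c r v k).subset hsub

end Pool.Agent.H95.BL.SD
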